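import Mathlib

/-!
# MP_3ac9ea_co, Q1: the coefficients of `RB_n(1221; q)` stabilize
-/

namespace Pool.Agent.Results.MP_3ac9ea_co.Stabilize

open Finset Polynomial

/-- Restricted growth functions of length `n` (positions `0, …, n-1`): all letters are positive
and each letter is at most `1` plus the maximum of the earlier letters (the maximum of the empty
set being `0`, so the first letter is `1`). -/
def IsRGF {n : ℕ} (w : Fin n → ℕ) : Prop :=
  ∀ i, 1 ≤ w i ∧ w i ≤ 1 + (Finset.univ.filter (· < i)).sup w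

/-- `w` avoids `1221`. -/
def Avoids1221 {n : ℕ} (w : Fin n → ℕ) : Prop :=
  ¬ ∃ a b c d : Fin n, a < b ∧ b < c ∧ c < d ∧ w a = w d ∧ w b = w c ∧ w a < w b

/-- `rb(w_j)`: the number of distinct letters larger than `w_j` occurring after position `j`. -/
def rbAt {n : ℕ} (w : Fin n → ℕ) (j : Fin n) : ℕ :=
  (((Finset.univ.filter (j < ·)).image w).filter (w j < ·)).card

/-- `rb(w) = ∑_j rb(w_j)`. -/
def rb {n : ℕ} (w : Fin n → ℕ) : ℕ := ∑ j, rbAt w j

/-- `R_n(1221)`. -/
def R (n : ℕ) : Set (Fin n → ℕ) := {w | IsRGF w ∧ Avoids1221 w}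

lemma letter_le {n : ℕ} (w : Fin n → ℕ) (hw : IsRGF w) : ∀ m : ℕ, ∀ i : Fin n, i.val < m →
    w i ≤ n := by
  have key : ∀ m : ℕ, ∀ i : Fin n, i.val < m → w i ≤ i.val + 1 := by
    intro m
    induction m with
    | zero => intro i hi; omega
    | succ m ih =>
      intro i hi
      have h1 := (hw i).2
      have h2 : (Finset.univ.filter (· < i)).sup w ≤ i.val := by
        apply Finset.sup_le
        intro j hj
        rw [mem_filter] at hj
        have h3 : j.val < i.val := hj.2
        have := ih j (by omega)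
        omega
      omega
  intro m i hi
  have := key m i hi
  have := i.isLt
  omega

lemma R_finite (n : ℕ) : (R n).Finite := by
  apply Set.Finite.subset (Set.Finite.pi' (t := fun _ : Fin n => Set.Icc 0 n)
    (fun _ => Set.finite_Icc 0 n))
  intro w hw i
  exact ⟨Nat.zero_le _, letter_le w hw.1 (i.val + 1) i (Nat.lt_succ_self _)⟩

/-- `RB_n(1221; q) = ∑_{w ∈ R_n(1221)} q^{rb(w)}`. -/
noncomputable def RB (n : ℕ) : ℕ[X] := ∑ w ∈ (R_finite n).toFinset, X ^ rb w

lemma coeff_RB (n k : ℕ) : (RB n).coeff k = (((R_finite n).toFinset).filter (rb · = k)).card := by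
  unfold RB
  rw [finsetSum_coeff, Finset.card_filter]
  apply Finset.sum_congr rfl
  intro w _
  rw [coeff_X_pow]
  simp only [eq_comm]

lemma sup_mem {n : ℕ} (w : Fin n → ℕ) (i : Fin n) (hi : 0 < i.val) :
    ∃ j < i, (Finset.univ.filter (· < i)).sup w = w j := by
  have hne : (Finset.univ.filter (· < i) : Finset (Fin n)).Nonempty :=
    ⟨⟨0, by have := i.isLt; omega⟩, mem_filter.mpr ⟨mem_univ _, hi⟩⟩
  obtain ⟨j, hj, hj'⟩ := Finset.exists_mem_eq_sup _ hne w
  exact ⟨j, by simpa using hj, hj'⟩

lemma earlier {n : ℕ} (w : Fin n → ℕ) (hw : IsRGF w) : ∀ m : ℕ, ∀ j : Fin n, j.val < m →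
    ∀ x, 1 ≤ x → x < w j → ∃ a < j, w a = x := by
  intro m
  induction m with
  | zero => intro j hj; omega
  | succ m ih =>
    intro j hj x hx1 hx
    rcases Nat.eq_zero_or_pos j.val with h0 | h0
    · have h1 := (hw j).2
      have h2 : (Finset.univ.filter (· < j) : Finset (Fin n)) = ∅ := by
        ext i; simp [Fin.lt_def, h0]
      rw [h2] at h1
      simp at h1
      omega
    · obtain ⟨i, hi, hi'⟩ := sup_mem w j h0
      have h1 := (hw j).2
      rw [hi'] at h1
      rcases Nat.lt_or_ge x (w i) with h2 | h2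
      · obtain ⟨a, ha, ha'⟩ := ih i (by have : i.val < j.val := hi; omega) x hx1 h2
        exact ⟨a, lt_trans ha hi, ha'⟩
      · exact ⟨i, hi, by omega⟩

/-- append a copy of the last letter -/
def app {m : ℕ} (w : Fin (m + 1) → ℕ) : Fin (m + 2) → ℕ :=
  fun i => w ⟨min i.val m, by omega⟩

lemma app_castSucc {m : ℕ} (w : Fin (m + 1) → ℕ) (i : Fin (m + 1)) : app w i.castSucc = w i := by
  unfold app
  congr 1
  ext
  simp
  omega

lemma app_last {m : ℕ} (w : Fin (m + 1) → ℕ) : app w (Fin.last (m + 1)) = w (Fin.last m) := by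
  unfold app
  congr 1
  ext
  simp

lemma rb_app {m : ℕ} (w : Fin (m + 1) → ℕ) : rb (app w) = rb w := by
  unfold rb
  rw [Fin.sum_univ_castSucc]
  have hlast : rbAt (app w) (Fin.last (m + 1)) = 0 := by
    unfold rbAt
    rw [Finset.card_eq_zero]
    apply Finset.eq_empty_of_forall_notMem
    intro x hx
    rw [mem_filter, mem_image] at hx
    obtain ⟨⟨i, hi, -⟩, -⟩ := hx
    rw [mem_filter] at hi
    exact absurd hi.2 (not_lt.mpr (Fin.le_last i))
  rw [hlast, add_zero]
  apply Finset.sum_congr rfl
  intro j _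
  unfold rbAt
  congr 1
  ext x
  simp only [mem_filter, mem_image, mem_univ, true_and, app_castSucc]
  constructor
  · rintro ⟨⟨i, hi, rfl⟩, hx⟩
    refine ⟨?_, hx⟩
    rcases Fin.eq_castSucc_or_eq_last i with ⟨i0, rfl⟩ | rfl
    · exact ⟨i0, by simpa using hi, by rw [app_castSucc]⟩
    · rw [app_last] at hx ⊢
      refine ⟨Fin.last m, ?_, rfl⟩
      rcases lt_or_eq_of_le (Fin.le_last j) with h | h
      · exact h
      · rw [h] at hx; exact absurd hx (lt_irrefl _)
  · rintro ⟨⟨i, hi, rfl⟩, hx⟩
    exact ⟨⟨i.castSucc, by simpa using hi, app_castSucc w i⟩, hx⟩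

lemma app_mem {m : ℕ} (w : Fin (m + 1) → ℕ) (hw : w ∈ R (m + 1)) : app w ∈ R (m + 2) := by
  refine ⟨?_, ?_⟩
  · intro i
    refine ⟨(hw.1 _).1, ?_⟩
    rcases Fin.eq_castSucc_or_eq_last i with ⟨i0, rfl⟩ | rfl
    · rw [app_castSucc]
      refine le_trans (hw.1 i0).2 ?_
      apply Nat.add_le_add_left
      apply Finset.sup_le
      intro j hj
      rw [mem_filter] at hj
      rw [← app_castSucc w j]
      apply Finset.le_sup (f := app w)
      simpa using hj.2
    · rw [app_last]
      have : w (Fin.last m) ≤ (Finset.univ.filter (· < Fin.last (m + 1))).sup (app w) := by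
        rw [← app_castSucc w (Fin.last m)]
        apply Finset.le_sup (f := app w)
        rw [mem_filter]
        exact ⟨mem_univ _, Fin.castSucc_lt_last _⟩
      exact this.trans (Nat.le_add_left _ _)
  · rintro ⟨a, b, c, d, hab, hbc, hcd, had, hbc', hlt⟩
    rcases Fin.eq_castSucc_or_eq_last a with ⟨a, rfl⟩ | rfl
    swap
    · exact absurd hab (not_lt.mpr (Fin.le_last b))
    rcases Fin.eq_castSucc_or_eq_last b with ⟨b, rfl⟩ | rfl
    swap
    · exact absurd hbc (not_lt.mpr (Fin.le_last c))
    rcases Fin.eq_castSucc_or_eq_last c with ⟨c, rfl⟩ | rfl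
    swap
    · exact absurd hcd (not_lt.mpr (Fin.le_last d))
    simp only [app_castSucc, Fin.castSucc_lt_castSucc_iff] at *
    rcases Fin.eq_castSucc_or_eq_last d with ⟨d, rfl⟩ | rfl
    · rw [app_castSucc] at had
      exact hw.2 ⟨a, b, c, d, hab, hbc, by simpa using hcd, had, hbc', hlt⟩
    · rw [app_last] at had
      refine hw.2 ⟨a, b, c, Fin.last m, hab, hbc, ?_, had, hbc', hlt⟩
      rcases lt_or_eq_of_le (Fin.le_last c) with h | h
      · exact h
      · rw [h] at hbc'
        omega

lemma init_mem {m : ℕ} (w : Fin (m + 2) → ℕ) (hw : w ∈ R (m + 2)) :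
    (fun i : Fin (m + 1) => w i.castSucc) ∈ R (m + 1) := by
  refine ⟨?_, ?_⟩
  · intro i
    refine ⟨(hw.1 _).1, ?_⟩
    refine le_trans (hw.1 i.castSucc).2 ?_
    apply Nat.add_le_add_left
    apply Finset.sup_le
    intro j hj
    rw [mem_filter] at hj
    rcases Fin.eq_castSucc_or_eq_last j with ⟨j, rfl⟩ | rfl
    · apply Finset.le_sup (f := fun i : Fin (m + 1) => w i.castSucc)
      simpa using hj.2
    · exact absurd hj.2 (not_lt.mpr (Fin.le_last _))
  · rintro ⟨a, b, c, d, hab, hbc, hcd, had, hbc', hlt⟩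
    exact hw.2 ⟨a.castSucc, b.castSucc, c.castSucc, d.castSucc, by simpa using hab,
      by simpa using hbc, by simpa using hcd, had, hbc', hlt⟩

/-- a long word of `R_n(1221)` with small `rb` ends with two equal letters -/
lemma ends {m k : ℕ} (w : Fin (m + 2) → ℕ) (hw : w ∈ R (m + 2)) (hk : rb w = k)
    (hm : 2 * k + 2 < m + 2) : w (Fin.last (m + 1)) = w (Fin.last m).castSucc := by
  classical
  have h1 : #{j | rbAt w j ≠ 0} ≤ k := by
    rw [← hk, Finset.card_filter]
    apply Finset.sum_le_sum
    intro j _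
    split_ifs with h
    · omega
    · omega
  have h2 : #{j | rbAt w j = 0} + #{j | rbAt w j ≠ 0} = m + 2 := by
    have := Finset.card_filter_add_card_filter_not (s := (Finset.univ : Finset (Fin (m + 2))))
      (fun j => rbAt w j = 0)
    simpa using this
  -- number of distinct letters
  have h3 : #(Finset.univ.image w) ≤ k + 1 := by
    have h0 : w 0 = 1 := by
      have h4 := (hw.1 0).2
      have h5 : (Finset.univ.filter (· < (0 : Fin (m + 2)))) = ∅ := by
        ext i; simp
      rw [h5] at h4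
      have h6 := (hw.1 0).1
      simp at h4
      omega
    have hsub : Finset.univ.image w ⊆
        insert 1 ((((Finset.univ.filter ((0 : Fin (m + 2)) < ·)).image w).filter (w 0 < ·))) := by
      intro x hx
      rw [mem_image] at hx
      obtain ⟨i, -, rfl⟩ := hx
      rw [mem_insert]
      by_cases hi : w i = 1
      · left; exact hi
      · right
        rw [mem_filter, mem_image]
        have hpos := (hw.1 i).1
        refine ⟨⟨i, ?_, rfl⟩, by omega⟩
        rw [mem_filter]
        refine ⟨mem_univ _, ?_⟩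
        rcases Fin.eq_zero_or_eq_succ i with h | ⟨i', h⟩
        · rw [h] at hi; exact absurd h0 hi
        · rw [h]; exact Fin.succ_pos _
    have h4 := (card_le_card hsub).trans (card_insert_le _ _)
    have h5 : rbAt w 0 ≤ rb w := Finset.single_le_sum (f := rbAt w) (fun _ _ => Nat.zero_le _)
      (mem_univ 0)
    rw [hk] at h5
    have h6 : #(((Finset.univ.filter ((0 : Fin (m + 2)) < ·)).image w).filter (w 0 < ·))
        = rbAt w 0 := rfl
    omega
  -- pigeonhole
  have h4 : #(Finset.univ.image w) < #(({j | rbAt w j = 0} : Finset (Fin (m + 2))).erase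
      (Fin.last (m + 1))) := by
    have := Finset.pred_card_le_card_erase (s := ({j | rbAt w j = 0} : Finset (Fin (m + 2))))
      (a := Fin.last (m + 1))
    omega
  obtain ⟨j, hj, j', hj', hne, heq⟩ := Finset.exists_ne_map_eq_of_card_lt_of_maps_to h4
    (f := w) (by intro j _; exact mem_image_of_mem w (mem_univ j))
  have main : ∀ j j' : Fin (m + 2), rbAt w j = 0 → j' ≠ Fin.last (m + 1) → w j = w j' → j < j' →
      w (Fin.last (m + 1)) = w (Fin.last m).castSucc := by
    intro j j' hj0 hj'l heq hlt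
    have hle : ∀ i, j < i → w i ≤ w j := by
      intro i hi
      by_contra hcon
      push Not at hcon
      unfold rbAt at hj0
      rw [Finset.card_eq_zero] at hj0
      have : w i ∈ (((Finset.univ.filter (j < ·)).image w).filter (w j < ·)) := by
        rw [mem_filter, mem_image]
        exact ⟨⟨i, by simp [hi], rfl⟩, hcon⟩
      rw [hj0] at this
      simp at this
    have hall : ∀ i, j' < i → w i = w j := by
      intro i hi
      by_contra hcon
      have h5 := hle i (lt_trans hlt hi)
      have h6 : w i < w j := lt_of_le_of_ne h5 hcon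
      obtain ⟨a, ha, ha'⟩ := earlier w hw.1 (j.val + 1) j (Nat.lt_succ_self _) (w i) (hw.1 i).1 h6
      exact hw.2 ⟨a, j, j', i, ha, hlt, hi, ha', heq, by rw [ha']; exact h6⟩
    have h7 : j' < Fin.last (m + 1) := lt_of_le_of_ne (Fin.le_last _) hj'l
    rw [hall _ h7]
    by_cases h8 : j' = (Fin.last m).castSucc
    · rw [← h8, heq]
    · have h9 : j' < (Fin.last m).castSucc := by
        apply lt_of_le_of_ne _ h8
        rw [Fin.le_def]
        have : j'.val < m + 1 := by simpa [Fin.lt_def] using h7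
        simp
        omega
      rw [hall _ h9]
  rw [mem_erase, mem_filter] at hj hj'
  rcases lt_or_gt_of_ne hne with h | h
  · exact main j j' hj.2.2 hj'.1 heq h
  · exact main j' j hj'.2.2 hj.1 heq.symm h

lemma step (k m : ℕ) (hm : 2 * k + 2 < m + 2) :
    (RB (m + 1)).coeff k = (RB (m + 2)).coeff k := by
  rw [coeff_RB, coeff_RB]
  apply Finset.card_bij (fun w _ => app w)
  · intro w hw
    rw [mem_filter, Set.Finite.mem_toFinset] at hw ⊢
    exact ⟨app_mem w hw.1, by rw [rb_app]; exact hw.2⟩
  · intro w _ w' _ h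
    funext i
    rw [← app_castSucc w i, ← app_castSucc w' i, h]
  · intro w hw
    rw [mem_filter, Set.Finite.mem_toFinset] at hw
    have happ : app (fun i : Fin (m + 1) => w i.castSucc) = w := by
      funext i
      rcases Fin.eq_castSucc_or_eq_last i with ⟨i, rfl⟩ | rfl
      · rw [app_castSucc]
      · rw [app_last]
        exact (ends w hw.1 hw.2 hm).symm
    refine ⟨fun i => w i.castSucc, ?_, happ⟩
    rw [mem_filter, Set.Finite.mem_toFinset]
    refine ⟨init_mem w hw.1, ?_⟩
    rw [← rb_app, happ]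
    exact hw.2

/-- Q1, affirmative: for every `k` the coefficient `[q^k] RB_n(1221; q)` is constant for
`n ≥ N_k`; one can take `N_k = 2k + 2`. -/
theorem result (k : ℕ) : ∃ c : ℕ, ∀ n : ℕ, 2 * k + 2 ≤ n → (RB n).coeff k = c := by
  refine ⟨(RB (2 * k + 2)).coeff k, ?_⟩
  intro n hn
  induction n, hn using Nat.le_induction with
  | base => rfl
  | succ n hn ih =>
    rw [← ih]
    obtain ⟨m, rfl⟩ : ∃ m, n = m + 1 := ⟨n - 1, by omega⟩
    exact (step k m (by omega)).symm

end Pool.Agent.Results.MP_3ac9ea_co.Stabilize
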